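import Pool.Agent.Lib.MP_d7a06f_lc.Defs
import Pool.Agent.Lib.MP_d7a06f_lc.Assembly

/-!
# MP_d7a06f_lc: the Three Intervals Game with lengths `1/u, 1/v, 1/w`

For all integers `3 ≤ u ≤ v ≤ w` BLUE's guaranteed escape probability `G(u,v,w)` is
`1 - 1/u - 1/v - 1/w`, except that `G(3,3,w) = 1/3 - 1/(3⌈w/3⌉)` and that ten sporadic triples have
the values listed in `formula`.

Upper bounds (strategies of RED): a rotation strategy on the three tilings of `[0,1]` by intervals
of lengths `1/u`, `1/v`, `1/w`; strategies with a margin for `(3,4,w)`, `w ≥ 36`, and `(3,5,w)`,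
`w ≥ 30`; and finitely many explicit tables checked by the kernel.  Lower bounds (strategies of
BLUE): equally spaced points, three clusters of points for `(3,3,w)`, and explicit weighted points
with a dynamic programming certificate for the ten sporadic triples.
-/

namespace Pool.Agent.Results.MP_d7a06f_lc.Main

open Pool.Agent.Lib.MP_d7a06f_lc

/-- The value of the Three Intervals Game with lengths `1/u, 1/v, 1/w` for all integers
`3 ≤ u ≤ v ≤ w`. -/
theorem result (u v w : ℕ) (hu : 3 ≤ u) (huv : u ≤ v) (hvw : v ≤ w) :
    gameValue u v w = formula u v w :=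
  gameValue_eq_formula hu huv hvw

end Pool.Agent.Results.MP_d7a06f_lc.Main
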